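import Pool.Agent.H97.SDQ.Targets
import Pool.Agent.H26.SD.TRL

/-!
Module TRQ of the second part of the project SD on `MP_c62aed_lc`: refutations of a renamed
formula, with the paths.
-/

set_option autoImplicit false

open Finset

namespace Pool.Agent.H9.SDQ

open Pool.Agent.H97.SD Pool.Agent.H97.SDQ Pool.Agent.H26.SD

open Classical in
/-- The pull back of a rule. -/
noncomputable def pr {V W : Type} (ι : V ↪ W) : Rule W → Rule V
  | Rule.ax => Rule.ax
  | Rule.weak j => Rule.weak j
  | Rule.res x j k => if h : ∃ v, ι v = x then Rule.res h.choose j k else Rule.weak j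

theorem pr_res {V W : Type} (ι : V ↪ W) (v : V) (j k : ℕ) :
    pr ι (Rule.res (ι v) j k) = Rule.res v j k := by
  have h : ∃ u, ι u = ι v := ⟨v, rfl⟩
  have h1 : h.choose = v := ι.injective h.choose_spec
  unfold pr
  simp only
  rw [dif_pos h, h1]

theorem pr_res' {V W : Type} (ι : V ↪ W) {x : W} (hx : ¬ ∃ v, ι v = x) (j k : ℕ) :
    pr ι (Rule.res x j k) = Rule.weak j := by
  unfold pr
  simp only
  rw [dif_neg hx]

theorem pr_eq_weak {V W : Type} (ι : V ↪ W) {ρ : Rule W} {j : ℕ} (h : pr ι ρ = Rule.weak j) :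
    ρ = Rule.weak j ∨ ∃ x k, ρ = Rule.res x j k ∧ ¬ ∃ v, ι v = x := by
  cases ρ with
  | ax => simp [pr] at h
  | weak j' =>
    left
    simpa [pr] using h
  | res x j' k' =>
    right
    by_cases hx : ∃ v, ι v = x
    · obtain ⟨v, rfl⟩ := hx
      rw [pr_res] at h
      exact absurd h (by simp)
    · rw [pr_res' ι hx] at h
      simp only [Rule.weak.injEq] at h
      subst h
      exact ⟨x, k', rfl, hx⟩

theorem pr_eq_res {V W : Type} (ι : V ↪ W) {ρ : Rule W} {v : V} {j k : ℕ}
    (h : pr ι ρ = Rule.res v j k) : ρ = Rule.res (ι v) j k := by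
  cases ρ with
  | ax => simp [pr] at h
  | weak j' => simp [pr] at h
  | res x j' k' =>
    by_cases hx : ∃ v, ι v = x
    · obtain ⟨u, rfl⟩ := hx
      rw [pr_res] at h
      simp only [Rule.res.injEq] at h
      obtain ⟨rfl, rfl, rfl⟩ := h
      rfl
    · rw [pr_res' ι hx] at h
      exact absurd h (by simp)

theorem pf_TRQ : P_TRQ := by
  intro V W _ _ ι F S r line rule hR
  obtain ⟨hr, h0, hstep⟩ := hR
  refine ⟨fun i => pb ι (line i), fun i => pr ι (rule i), ⟨hr, ?_, ?_⟩, ?_⟩
  · ext l
    simp [mem_pb, h0]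
  · intro i hi
    have h1 := hstep i hi
    change Correct F (fun i => pb ι (line i)) i (pr ι (rule i))
    revert h1
    cases hρ : rule i with
    | ax =>
      rintro ⟨A, hA, hAC⟩
      obtain ⟨A₀, hA₀, rfl⟩ := Finset.mem_image.1 hA
      refine ⟨A₀, hA₀, ?_⟩
      intro l hl
      rw [mem_pb]
      exact hAC (Finset.mem_image.2 ⟨l, hl, rfl⟩)
    | weak j =>
      rintro ⟨hj, hs⟩
      refine ⟨hj, ?_⟩
      intro l hl
      rw [mem_pb] at hl ⊢
      exact hs hl
    | res x j k =>
      rintro ⟨hj, hk, hs₀, hs₁⟩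
      by_cases hx : ∃ v, ι v = x
      · obtain ⟨v, rfl⟩ := hx
        rw [pr_res]
        refine ⟨hj, hk, ?_, ?_⟩
        · intro l hl
          rw [mem_pb] at hl
          rcases Finset.mem_insert.1 (hs₀ hl) with h | h
          · simp only [Prod.mk.injEq, EmbeddingLike.apply_eq_iff_eq] at h
            exact Finset.mem_insert.2 (Or.inl (Prod.ext h.1 h.2))
          · exact Finset.mem_insert_of_mem ((mem_pb ι _ l).2 h)
        · intro l hl
          rw [mem_pb] at hl
          rcases Finset.mem_insert.1 (hs₁ hl) with h | h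
          · simp only [Prod.mk.injEq, EmbeddingLike.apply_eq_iff_eq] at h
            exact Finset.mem_insert.2 (Or.inl (Prod.ext h.1 h.2))
          · exact Finset.mem_insert_of_mem ((mem_pb ι _ l).2 h)
      · rw [pr_res' ι hx]
        refine ⟨hj, ?_⟩
        intro l hl
        rw [mem_pb] at hl ⊢
        rcases Finset.mem_insert.1 (hs₀ hl) with h | h
        · simp only [Prod.mk.injEq] at h
          exact absurd ⟨l.1, h.1⟩ hx
        · exact h
  · intro i l' hp
    induction hp with
    | refl => exact ⟨[], Pool.Agent.H97.SDQ.Path.refl, fun v => rfl⟩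
    | weak hp hr1 ih =>
      obtain ⟨l, hl, hc⟩ := ih
      rcases pr_eq_weak ι hr1 with h | ⟨x, k, h, hx⟩
      · exact ⟨l, Pool.Agent.H97.SDQ.Path.weak hl h, hc⟩
      · refine ⟨x :: l, Pool.Agent.H97.SDQ.Path.left hl h, fun v => ?_⟩
        rw [List.count_cons_of_ne (fun h2 => hx ⟨v, h2.symm⟩), hc v]
    | @left i j k x l1 hp hr1 ih =>
      obtain ⟨l, hl, hc⟩ := ih
      have h := pr_eq_res ι hr1
      refine ⟨ι x :: l, Pool.Agent.H97.SDQ.Path.left hl h, fun v => ?_⟩
      rw [List.count_cons, List.count_cons, hc v]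
      congr 1
      simp only [beq_iff_eq, EmbeddingLike.apply_eq_iff_eq]
    | @right i j k x l1 hp hr1 ih =>
      obtain ⟨l, hl, hc⟩ := ih
      have h := pr_eq_res ι hr1
      refine ⟨ι x :: l, Pool.Agent.H97.SDQ.Path.right hl h, fun v => ?_⟩
      rw [List.count_cons, List.count_cons, hc v]
      congr 1
      simp only [beq_iff_eq, EmbeddingLike.apply_eq_iff_eq]

end Pool.Agent.H9.SDQ
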